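import Pool.Agent.X219.ME.Final

/-!
MP_6a83a4_lc, Q1: there is a maximal eventually different family of permutations of `ℕ` which is
closed as a subset of Baire space `ℕ → ℕ` (product of the discrete topologies).
-/

namespace Pool.Agent.Results.MP_6a83a4_lc.ClosedFamily

theorem result : ∃ F : Set (ℕ → ℕ), IsClosed F ∧
    (∀ f ∈ F, Function.Bijective f) ∧
    (∀ f ∈ F, ∀ g ∈ F, f ≠ g → {n : ℕ | f n = g n}.Finite) ∧
    (∀ g : ℕ → ℕ, Function.Bijective g → ∃ f ∈ F, {n : ℕ | f n = g n}.Infinite) :=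
  Pool.Agent.X219.ME.main

end Pool.Agent.Results.MP_6a83a4_lc.ClosedFamily
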